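import Pool.Agent.H51.Skew.Merged

set_option autoImplicit false

namespace Pool.Agent.Results.MP_e40659_an.StableLineAllRadii

open Pool.Agent.H51.Skew

/-- For every `d ≥ 2` and every `r ∈ (0, 1)` there is a holomorphic skew product
`F(z₁, w) = (z₁ ^ d, G_{z₁}(w))` on `ℂ × ℂ²` such that for every `l : ℂ` the map `G_l` is a
holomorphic automorphism of `ℂ²` fixing the origin and all eigenvalues of its derivative at the
origin have modulus exactly `r`, while for a dense set of points `p₁` of the unit circle the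
stable manifold of `(p₁, 0)` is a complex coordinate line, and it contains no injective
holomorphic image of `ℂ²`. -/
theorem result :
    ∀ d : ℕ, 2 ≤ d → ∀ r : ℝ, 0 < r → r < 1 → ∃ G : ℂ → ℂ × ℂ → ℂ × ℂ,
      Differentiable ℂ (fun z : ℂ × (ℂ × ℂ) => G z.1 z.2) ∧
      (∀ l : ℂ, IsHolAut (G l) ∧ G l 0 = 0 ∧
        ∀ μ : ℂ, Module.End.HasEigenvalue
          ((fderiv ℂ (G l) 0 : (ℂ × ℂ) →L[ℂ] (ℂ × ℂ)) : (ℂ × ℂ) →ₗ[ℂ] (ℂ × ℂ)) μ →
            ‖μ‖ = r) ∧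
      ∀ q : ℂ, ‖q‖ = 1 → ∀ ε : ℝ, 0 < ε → ∃ p₁ : ℂ, ‖p₁‖ = 1 ∧ ‖p₁ - q‖ < ε ∧
        (stableSet d G p₁ = {w | w.1 = 0} ∨ stableSet d G p₁ = {w | w.2 = 0}) ∧
        ¬ ∃ φ : ℂ × ℂ → ℂ × ℂ, Differentiable ℂ φ ∧ Function.Injective φ ∧
          ∀ x, φ x ∈ stableSet d G p₁ :=
  Pool.Agent.H51.SkewR.main

end Pool.Agent.Results.MP_e40659_an.StableLineAllRadii
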